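import Pool.Agent.Work.MP_5465ec_co.Final

/-!
Question 2: among the complete simple games with three types of voters and two shift-minimal
winning vectors, those that are 2-trade robust but not 3-trade robust are exactly the members of
the two families.
-/

namespace Pool.Agent.Results.MP_5465ec_co.ExceptionalFamilies

open WG3

/-- Let `G` be a complete simple game with exactly three types of voters (numbered by `τ` from the
most to the least desirable) and exactly two shift-minimal winning vectors. Then `G` is 2-trade
robust but not 3-trade robust if and only if it is a member of `F1` or of `F2`. -/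
theorem result {N : Type*} [Fintype N] [DecidableEq N] (G : SimpleGame N) (τ : N → Fin 3)
    (hτ : G.IsTyping τ) (hr : {m | G.ShiftMinimal τ m}.ncard = 2) :
    (G.TradeRobust 2 ∧ ¬ G.TradeRobust 3) ↔ (G.InF1 τ ∨ G.InF2 τ) :=
  SimpleGame.q2 hτ hr

end Pool.Agent.Results.MP_5465ec_co.ExceptionalFamilies
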