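import Pool.Agent.Work.MP_5465ec_co.Final

/-!
Question 1: every 3-trade robust complete simple game with three types of voters and two
shift-minimal winning vectors is weighted.
-/

namespace Pool.Agent.Results.MP_5465ec_co.ThreeRobustWeighted

open WG3

/-- Let `G` be a complete simple game with exactly three types of voters (numbered by `τ` from the
most to the least desirable) and exactly two shift-minimal winning vectors. If `G` is 3-trade
robust, then `G` is weighted. -/
theorem result {N : Type*} [Fintype N] [DecidableEq N] (G : SimpleGame N) (τ : N → Fin 3)
    (hτ : G.IsTyping τ) (hr : {m | G.ShiftMinimal τ m}.ncard = 2)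
    (hR : G.TradeRobust 3) : G.Weighted :=
  SimpleGame.q1 hτ hr hR

end Pool.Agent.Results.MP_5465ec_co.ThreeRobustWeighted
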